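import Pool.Agent.H514R4.Lit

/-! Task Inv1 of project H514-NIL. -/

set_option autoImplicit false

open scoped Manifold ContDiff Topology

namespace Pool.Agent.H023R3.NIL

open H514N

/-- the space of a nilsystem is compact and Hausdorff -/
theorem nilsys_space {k : ℕ} {X : Type} [TopologicalSpace X] {T : X → X} (h : IsNilsys k X T) :
    CompactSpace X ∧ T2Space X := by
  obtain ⟨V, _, _, _, G, _, _, _, _, _, Γ, -, hd, hc, g, e, he⟩ := h
  have := hd
  have := hc
  have : IsTopologicalGroup G := topologicalGroup_of_lieGroup 𝓘(ℝ, V) ∞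
  have : IsClosed (Γ : Set G) := Subgroup.isClosed_of_discrete
  have : T2Space (G ⧸ Γ) := inferInstance
  exact ⟨e.symm.compactSpace, e.symm.t2Space⟩

/-- the functions of one coordinate on a sequential inverse limit form a star subalgebra -/
def coordAlg (Y : ℕ → Type) [∀ i, TopologicalSpace (Y i)] (p : ∀ i, Y (i + 1) → Y i)
    (hp : ∀ i, Continuous (p i)) :
    StarSubalgebra ℂ C({y : ∀ i, Y i // ∀ i, p i (y (i + 1)) = y i}, ℂ) :=
  have up : ∀ (h : C({y : ∀ i, Y i // ∀ i, p i (y (i + 1)) = y i}, ℂ)) (i j : ℕ), i ≤ j →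
      (∃ f : C(Y i, ℂ), ∀ z, h z = f (z.1 i)) → ∃ f : C(Y j, ℂ), ∀ z, h z = f (z.1 j) := by
    intro h i j hij hi
    induction j, hij using Nat.le_induction with
    | base => exact hi
    | succ m _ ih =>
      obtain ⟨f, hf⟩ := ih
      refine ⟨f.comp ⟨p m, hp m⟩, fun z => ?_⟩
      rw [hf z]
      show f (z.1 m) = f (p m (z.1 (m + 1)))
      rw [z.2 m]
  { carrier := {h | ∃ i, ∃ f : C(Y i, ℂ), ∀ z, h z = f (z.1 i)}
    mul_mem' := by
      rintro a b ⟨i, ha⟩ ⟨j, hb⟩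
      obtain ⟨f, hf⟩ := up a i (max i j) (le_max_left _ _) ha
      obtain ⟨g, hg⟩ := up b j (max i j) (le_max_right _ _) hb
      exact ⟨max i j, f * g, fun z => by simp [hf z, hg z]⟩
    one_mem' := ⟨0, 1, fun z => rfl⟩
    add_mem' := by
      rintro a b ⟨i, ha⟩ ⟨j, hb⟩
      obtain ⟨f, hf⟩ := up a i (max i j) (le_max_left _ _) ha
      obtain ⟨g, hg⟩ := up b j (max i j) (le_max_right _ _) hb
      exact ⟨max i j, f + g, fun z => by simp [hf z, hg z]⟩
    zero_mem' := ⟨0, 0, fun z => rfl⟩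
    algebraMap_mem' := fun r => ⟨0, algebraMap ℂ C(Y 0, ℂ) r, fun z => rfl⟩
    star_mem' := by
      rintro a ⟨i, f, hf⟩
      exact ⟨i, star f, fun z => by simp [hf z]⟩ }

theorem mem_coordAlg {Y : ℕ → Type} [∀ i, TopologicalSpace (Y i)] {p : ∀ i, Y (i + 1) → Y i}
    {hp : ∀ i, Continuous (p i)} (h : C({y : ∀ i, Y i // ∀ i, p i (y (i + 1)) = y i}, ℂ)) :
    h ∈ coordAlg Y p hp ↔ ∃ i, ∃ f : C(Y i, ℂ), ∀ z, h z = f (z.1 i) := Iff.rfl

/-- approximation of continuous functions on the inverse limit by functions of one coordinate -/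
theorem approx {Y : ℕ → Type} [∀ i, TopologicalSpace (Y i)] [∀ i, CompactSpace (Y i)]
    [∀ i, T2Space (Y i)] {p : ∀ i, Y (i + 1) → Y i} (hp : ∀ i, Continuous (p i))
    (F : C({y : ∀ i, Y i // ∀ i, p i (y (i + 1)) = y i}, ℂ)) {ε : ℝ} (hε : 0 < ε) :
    ∃ i, ∃ f : C(Y i, ℂ), ∀ z, ‖F z - f (z.1 i)‖ ≤ ε := by
  have hcl : IsClosed {y : ∀ i, Y i | ∀ i, p i (y (i + 1)) = y i} := by
    have : {y : ∀ i, Y i | ∀ i, p i (y (i + 1)) = y i} = ⋂ i, {y | p i (y (i + 1)) = y i} := by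
      ext y; simp
    rw [this]
    exact isClosed_iInter fun i =>
      isClosed_eq ((hp i).comp (continuous_apply (i + 1))) (continuous_apply i)
  have : CompactSpace {y : ∀ i, Y i // ∀ i, p i (y (i + 1)) = y i} :=
    isCompact_iff_compactSpace.mp hcl.isCompact
  have hsep : (coordAlg Y p hp).SeparatesPoints := by
    intro z z' hne
    have : ∃ i, z.1 i ≠ z'.1 i := by
      by_contra hcon
      push Not at hcon
      exact hne (Subtype.ext (funext hcon))
    obtain ⟨i, hi⟩ := this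
    obtain ⟨f, hf0, hf1, -⟩ := exists_continuous_zero_one_of_isClosed
      (isClosed_singleton (x := z.1 i)) (isClosed_singleton (x := z'.1 i))
      (by simpa using hi)
    let h : C({y : ∀ i, Y i // ∀ i, p i (y (i + 1)) = y i}, ℂ) :=
      ⟨fun y => ((f (y.1 i) : ℝ) : ℂ), Complex.continuous_ofReal.comp
        (f.continuous.comp ((continuous_apply i).comp continuous_subtype_val))⟩
    refine ⟨h, ⟨h, ?_, rfl⟩, ?_⟩
    · show h ∈ coordAlg Y p hp
      rw [mem_coordAlg]
      exact ⟨i, ⟨fun y => ((f y : ℝ) : ℂ), by fun_prop⟩, fun z => rfl⟩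
    · show ((f (z.1 i) : ℝ) : ℂ) ≠ ((f (z'.1 i) : ℝ) : ℂ)
      have h0 : f (z.1 i) = 0 := hf0 rfl
      have h1 : f (z'.1 i) = 1 := hf1 rfl
      rw [h0, h1]
      norm_num
  have htop := ContinuousMap.starSubalgebra_topologicalClosure_eq_top_of_separatesPoints
    (coordAlg Y p hp) hsep
  have hF : F ∈ (coordAlg Y p hp).topologicalClosure := by rw [htop]; trivial
  have hF' : F ∈ closure ((coordAlg Y p hp : StarSubalgebra ℂ _) :
    Set C({y : ∀ i, Y i // ∀ i, p i (y (i + 1)) = y i}, ℂ)) := hF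
  rw [Metric.mem_closure_iff] at hF'
  obtain ⟨h, hh, hd⟩ := hF' ε hε
  obtain ⟨i, f, hf⟩ := (mem_coordAlg h).1 hh
  refine ⟨i, f, fun z => ?_⟩
  rw [← hf z, ← dist_eq_norm]
  exact (ContinuousMap.dist_apply_le_dist z).trans hd.le

theorem taskInv1 : TaskInv1 := by
  intro k ψ h ε hε
  obtain ⟨X, _, T, x, F, ⟨Y, tY, S, p, hN, hp, e, he⟩, hF, hψ⟩ := h
  have : ∀ i, CompactSpace (Y i) := fun i => (nilsys_space (hN i)).1
  have : ∀ i, T2Space (Y i) := fun i => (nilsys_space (hN i)).2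
  obtain ⟨i, f, hf⟩ := approx (fun i => (hp i).1)
    (⟨fun z => F (e.symm z), hF.comp e.symm.continuous⟩ :
      C({y : ∀ i, Y i // ∀ i, p i (y (i + 1)) = y i}, ℂ)) hε
  have hiter : ∀ n, (e (T^[n] x)).1 i = (S i)^[n] ((e x).1 i) := by
    intro n
    induction n with
    | zero => rfl
    | succ n ih => rw [Function.iterate_succ_apply', Function.iterate_succ_apply', he, ih]
  refine ⟨fun n => f ((S i)^[n] ((e x).1 i)), ?_, fun n => ?_⟩
  · obtain ⟨V, i1, i2, i3, G, i4, i5, i6, i7, i8, Γ, hk, hd, hc, g, e', he'⟩ := hN i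
    have hit : ∀ n y, e' ((S i)^[n] y) = g ^ n • e' y := by
      intro n y
      induction n with
      | zero => simp
      | succ n ih => rw [Function.iterate_succ_apply', he', ih, smul_smul, ← pow_succ']
    refine ⟨V, i1, i2, i3, G, i4, i5, i6, i7, i8, Γ, hk, hd, hc, fun q => f (e'.symm q), g,
      e' ((e x).1 i), f.continuous.comp e'.symm.continuous, fun n => ?_⟩
    show f ((S i)^[n] ((e x).1 i)) = f (e'.symm (g ^ n • e' ((e x).1 i)))
    rw [← hit, e'.symm_apply_apply]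
  · have := hf (e (T^[n] x))
    simp only [ContinuousMap.coe_mk, Homeomorph.symm_apply_apply] at this
    show ‖ψ n - f ((S i)^[n] ((e x).1 i))‖ ≤ ε
    rw [hψ n, ← hiter n]
    exact this

end Pool.Agent.H023R3.NIL
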